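import Pool.Agent.Helper96.ME.Lib

/-!
# MP_bde085_nt, block E: module CAI (calculus of `ca`)
-/

set_option autoImplicit false

namespace Pool.Agent.Helper96.ME

open Pool.Agent.Helper96.MP
open scoped MatrixGroups

theorem cai_hom (M : ℕ) (C : ℤ → ℤ → ℝ) (hC : Hom0 C) (g : SL(2, ℤ)) : Hom0 (ca M C g) := by
  intro k p q hk
  unfold ca
  rw [← hC k (M * g 0 0 * p + g 0 1 * q) (M ^ 2 * g 1 0 * p + M * g 1 1 * q) hk]
  congr 1 <;> ring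

theorem cai_comp (M : ℕ) (hM : 1 ≤ M) (C : ℤ → ℤ → ℝ) (hC : Hom0 C) (g h : SL(2, ℤ)) :
    ca M (ca M C g) h = ca M C (g * h) := by
  funext x y
  unfold ca
  rw [← hC M (M * (g * h) 0 0 * x + (g * h) 0 1 * y)
    (M ^ 2 * (g * h) 1 0 * x + M * (g * h) 1 1 * y) (by exact_mod_cast (by omega : M ≠ 0))]
  rw [Lib.mul00, Lib.mul01, Lib.mul10, Lib.mul11]
  congr 1 <;> ring

theorem cai_left (M Q : ℕ) (C : ℤ → ℤ → ℝ) (hM : 1 ≤ M) (hco : Nat.Coprime Q M)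
    (hE : EqC (Q * M ^ 2) C) (g g' : SL(2, ℤ)) (hg : (Q : ℤ) ∣ g 1 0) (hg' : (Q : ℤ) ∣ g' 1 0)
    (hu : ∃ u : (ZMod M)ˣ, rd M g' = dg u * rd M g) : eqc (ca M C g') (ca M C g) := by
  obtain ⟨u, hu⟩ := hu
  have hMZ : (M : ℤ) ≠ 0 := by exact_mod_cast (by omega : M ≠ 0)
  -- the matrix delta
  have hd : g' = (g' * g⁻¹) * g := by rw [mul_assoc, inv_mul_cancel, mul_one]
  obtain ⟨δ, hδ⟩ : ∃ δ : SL(2, ℤ), δ = g' * g⁻¹ := ⟨_, rfl⟩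
  rw [← hδ] at hd
  have hrd : rd M δ = dg u := by
    rw [hδ, Lib.rd_mul, Lib.rd_inv, hu, mul_assoc, mul_inv_cancel, mul_one]
  have hM01 : (M : ℤ) ∣ δ 0 1 := by
    have h1 := congrArg (fun A : SL(2, ZMod M) => A 0 1) hrd
    simp only [Lib.rd_apply, Lib.dg01] at h1
    exact (ZMod.intCast_zmod_eq_zero_iff_dvd _ _).1 h1
  have hM10 : (M : ℤ) ∣ δ 1 0 := by
    have h1 := congrArg (fun A : SL(2, ZMod M) => A 1 0) hrd
    simp only [Lib.rd_apply, Lib.dg10] at h1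
    exact (ZMod.intCast_zmod_eq_zero_iff_dvd _ _).1 h1
  have hQ10 : (Q : ℤ) ∣ δ 1 0 := by
    have h1 : δ ∈ CongruenceSubgroup.Gamma0 Q := by
      rw [hδ]
      exact mul_mem ((Lib.mem_Gamma0 Q g').2 hg') (inv_mem ((Lib.mem_Gamma0 Q g).2 hg))
    exact (Lib.mem_Gamma0 Q δ).1 h1
  have hQM : ((Q : ℤ) * M) ∣ δ 1 0 := by
    have hco' : IsCoprime (Q : ℤ) (M : ℤ) := Nat.isCoprime_iff_coprime.2 hco
    exact hco'.mul_dvd hQ10 hM10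
  obtain ⟨b, hb⟩ := hM01
  obtain ⟨c, hc⟩ := hQM
  have hdet := Lib.det1 δ
  have hdetg := Lib.det1 g
  refine ⟨C (δ 0 0) (M * δ 1 0) - C 1 0, ?_⟩
  intro x y hxy
  have hG : G0 (Q * M ^ 2) (δ 0 0) b (M * δ 1 0) (δ 1 1) := by
    refine ⟨?_, ?_⟩
    · rw [hb] at hdet; linear_combination hdet
    · refine ⟨c, ?_⟩
      rw [hc]; push_cast; ring
  have hne : (M * g 0 0 * x + g 0 1 * y ≠ 0 ∨ M ^ 2 * g 1 0 * x + M * g 1 1 * y ≠ 0) := by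
    apply Lib.ne_zero_of_det _ hxy
    have : (M : ℤ) * g 0 0 * (M * g 1 1) - g 0 1 * (M ^ 2 * g 1 0) = M ^ 2 := by
      linear_combination ((M : ℤ) ^ 2) * hdetg
    rw [this]
    positivity
  have h2 := hE _ _ _ _ hG _ _ hne
  unfold ca
  rw [← h2]
  have e0 : g' 0 0 = δ 0 0 * g 0 0 + δ 0 1 * g 1 0 := by
    conv_lhs => rw [hd]
    exact Lib.mul00 δ g
  have e1 : g' 0 1 = δ 0 0 * g 0 1 + δ 0 1 * g 1 1 := by
    conv_lhs => rw [hd]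
    exact Lib.mul01 δ g
  have e2 : g' 1 0 = δ 1 0 * g 0 0 + δ 1 1 * g 1 0 := by
    conv_lhs => rw [hd]
    exact Lib.mul10 δ g
  have e3 : g' 1 1 = δ 1 0 * g 0 1 + δ 1 1 * g 1 1 := by
    conv_lhs => rw [hd]
    exact Lib.mul11 δ g
  rw [e0, e1, e2, e3, hb]
  congr 1 <;> ring

theorem cai_right (M Q : ℕ) (C : ℤ → ℤ → ℝ) (p q r s : ℤ)
    (hG : G0 (Q * M ^ 2) p q r s) : ∃ γ : SL(2, ℤ), (Q : ℤ) ∣ γ 1 0 ∧
      (∃ u : (ZMod M)ˣ, rd M γ = dg u) ∧ ∀ g : SL(2, ℤ), ∀ x y : ℤ,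
        ca M C g (p * x + q * y) (r * x + s * y) = ca M C (g * γ) x y := by
  obtain ⟨hdet, c, hc⟩ := hG
  push_cast at hc
  have hdet' : Matrix.det !![p, M * q; Q * M * c, s] = 1 := by
    rw [Matrix.det_fin_two_of, ← hdet, hc]; ring
  obtain ⟨γ, f0, f1, f2, f3⟩ : ∃ γ : SL(2, ℤ), γ 0 0 = p ∧ γ 0 1 = M * q ∧ γ 1 0 = Q * M * c ∧
      γ 1 1 = s := ⟨⟨!![p, M * q; Q * M * c, s], hdet'⟩, rfl, rfl, rfl, rfl⟩
  have hM0 : ((M : ℤ) : ZMod M) = 0 := by simp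
  have hps : (p : ZMod M) * (s : ZMod M) = 1 := by
    have h1 : p * s = 1 + (M : ℤ) * (Q * M * c * q) := by
      rw [← hdet, hc]; ring
    have h2 := congrArg (fun z : ℤ => (z : ZMod M)) h1
    simp only [Int.cast_mul, Int.cast_add, Int.cast_one, hM0, zero_mul, add_zero] at h2
    exact h2
  refine ⟨γ, ?_, ?_, ?_⟩
  · exact ⟨M * c, by rw [f2]; ring⟩
  · refine ⟨⟨(p : ZMod M), (s : ZMod M), hps, by rw [mul_comm]; exact hps⟩, ?_⟩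
    apply Lib.ext4
    · rw [Lib.rd_apply, f0]; simp
    · rw [Lib.rd_apply, f1]; simp
    · rw [Lib.rd_apply, f2]; simp
    · rw [Lib.rd_apply, f3]; simp
  · intro g x y
    unfold ca
    rw [Lib.mul00, Lib.mul01, Lib.mul10, Lib.mul11, f0, f1, f2, f3, hc]
    congr 1 <;> ring

theorem st_CAI : ST_CAI := by
  intro M Q C hM hQ hco hC
  refine ⟨cai_hom M C hC, cai_comp M hM C hC, fun hE => ⟨?_, ?_⟩⟩
  · intro g g' hg hg' hu
    exact cai_left M Q C hM hco hE g g' hg hg' hu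
  · intro p q r s hG
    exact cai_right M Q C p q r s hG

end Pool.Agent.Helper96.ME
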