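import Pool.Agent.Helper96.ME.Lib

/-!
# MP_bde085_nt, block E: module YSW (the symbol is reproduced by the spherical function)
-/

set_option autoImplicit false

namespace Pool.Agent.Helper96.ME

open Pool.Agent.Helper96.MP
open scoped MatrixGroups

theorem ysw_ca (M : ℕ) (hM : 1 ≤ M) (C : ℤ → ℤ → ℝ) (hC : Hom0 C) (l y : SL(2, ℤ)) (j : Fin 2) :
    ca M C l (y 0 j) (M * y 1 j) = C ((l * y) 0 j) (M * (l * y) 1 j) := by
  unfold ca
  rw [← hC M ((l * y) 0 j) (M * (l * y) 1 j) (by exact_mod_cast (by omega : M ≠ 0))]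
  have e0 : (l * y) 0 j = l 0 0 * y 0 j + l 0 1 * y 1 j := by
    simp [Matrix.SpecialLinearGroup.coe_mul, Matrix.mul_apply, Fin.sum_univ_two]
  have e1 : (l * y) 1 j = l 1 0 * y 0 j + l 1 1 * y 1 j := by
    simp [Matrix.SpecialLinearGroup.coe_mul, Matrix.mul_apply, Fin.sum_univ_two]
  rw [e0, e1]
  congr 1 <;> ring

theorem ysw_ne (M : ℕ) (hM : 1 ≤ M) (y : SL(2, ℤ)) :
    (y 0 0 ≠ 0 ∨ (M : ℤ) * y 1 0 ≠ 0) ∧ (y 0 1 ≠ 0 ∨ (M : ℤ) * y 1 1 ≠ 0) := by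
  have hMZ : (M : ℤ) ≠ 0 := by exact_mod_cast (by omega : M ≠ 0)
  have hd := Lib.det1 y
  constructor
  · by_contra hcon
    push Not at hcon
    obtain ⟨h1, h2⟩ := hcon
    have h3 : y 1 0 = 0 := (mul_eq_zero.1 h2).resolve_left hMZ
    rw [h1, h3] at hd
    simp at hd
  · by_contra hcon
    push Not at hcon
    obtain ⟨h1, h2⟩ := hcon
    have h3 : y 1 1 = 0 := (mul_eq_zero.1 h2).resolve_left hMZ
    rw [h1, h3] at hd
    simp at hd

theorem st_YSW (hLFT : ST_LFT) (hCOS : ST_COS) : ST_YSW := by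
  intro M Q C φ w hM hQ hco hC hw hφ z
  obtain ⟨hL1, hL2⟩ := hLFT M Q hM hQ hco
  haveI : NeZero M := ⟨by omega⟩
  haveI : Fintype SL(2, ZMod M) := Fintype.ofFinite _
  intro g
  obtain ⟨y, hy1, hy2⟩ := hL2 g z
  obtain ⟨κ, hκ⟩ := hφ
  obtain ⟨n1, n2⟩ := ysw_ne M hM y
  have k1 := hκ _ _ n1
  have k2 := hκ _ _ n2
  unfold hh at k1 k2
  rw [finsum_eq_sum_of_fintype] at k1 k2 ⊢
  have hterm : ∀ x : SL(2, ZMod M), w (x * g) z =
      ca M C (lf M Q x) (y 0 0) (M * y 1 0) - ca M C (lf M Q x) (y 0 1) (M * y 1 1) := by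
    intro x
    have h1 := hw (lf M Q x * y)
    rw [Lib.rd_mul, (hL1 x).2, hy1, Lib.cls_mul hCOS Q hQ _ _ (hL1 x).1, hy2] at h1
    rw [h1, ysw_ca M hM C hC, ysw_ca M hM C hC]
  have hwy := hw y
  rw [hy1, hy2] at hwy
  simp only [smul_eq_mul]
  simp_rw [hterm, mul_sub]
  rw [Finset.sum_sub_distrib, k1, k2, hwy]
  ring

end Pool.Agent.Helper96.ME
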